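import Mathlib

set_option autoImplicit false

namespace Pool.Agent.Lib.MP_efe87e_co

open Finset

/-- `Forces move finished good b p`: in the game with positions `P`, legal moves `move`, which ends as
soon as `finished` holds, one of the two alternating players can force the play to end, after finitely
many moves, in a position with `good`. `b = true` means that it is the turn of this player. -/
inductive Forces {P : Type} (move : P → P → Prop) (finished good : P → Prop) : Bool → P → Prop
  | done (b : Bool) (p : P) : finished p → good p → Forces move finished good b p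
  | own (p q : P) : ¬ finished p → move p q → Forces move finished good false q →
      Forces move finished good true p
  | opp (p : P) : ¬ finished p → (∃ q, move p q) → (∀ q, move p q → Forces move finished good true q) →
      Forces move finished good false p

/-- all edges are covered by the picked vertices -/
def IntCovered {V : Type} (H : Finset (Finset V)) (S : Finset V) : Prop :=
  ∀ E ∈ H, ∃ x ∈ E, x ∈ S

/-- a vertex of a still uncovered edge is picked -/
def IntMove {V : Type} [DecidableEq V] (H : Finset (Finset V)) (S S' : Finset V) : Prop :=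
  ∃ v, (∃ E ∈ H, v ∈ E ∧ ∀ x ∈ E, x ∉ S) ∧ S' = insert v S

/-- the load of an edge -/
noncomputable def load {V : Type} (t : V → ℝ) (E : Finset V) : ℝ := min 1 (∑ x ∈ E, t x)

/-- all edges have load one -/
def FracCovered {V : Type} (H : Finset (Finset V)) (t : V → ℝ) : Prop := ∀ E ∈ H, load t E = 1

/-- a move of the fractional game, from the cover function `t` to the cover function `t'` -/
def FracMove {V : Type} [DecidableEq V] (H : Finset (Finset V)) (t t' : V → ℝ) : Prop :=
  ∃ (v : ℕ → V) (w : ℕ → ℝ) (s : ℝ), (∀ k, 0 ≤ w k ∧ w k ≤ 1) ∧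
    (∀ k, 0 < w k → ∃ E ∈ H, v k ∈ E ∧
      load t E + (∑ i ∈ range k, if v i ∈ E then w i else 0) + w k ≤ 1) ∧
    HasSum w s ∧ (s = 1 ∨ s ≤ 1 ∧ FracCovered H t') ∧
    ∀ u, HasSum (fun k => if v k = u then w k else 0) (t' u - t u)

section General

set_option linter.unusedSectionVars false

variable {V : Type} [DecidableEq V] {H : Finset (Finset V)}

theorem covered_iff {t : V → ℝ} : FracCovered H t ↔ ∀ E ∈ H, 1 ≤ ∑ x ∈ E, t x := by
  unfold FracCovered load
  constructor
  · intro h E hE
    have := h E hE
    exact min_eq_left_iff.mp this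
  · intro h E hE
    exact min_eq_left (h E hE)

theorem FracMove.le {t t' : V → ℝ} (h : FracMove H t t') (u : V) : t u ≤ t' u := by
  obtain ⟨v, w, s, hw, -, -, -, hs⟩ := h
  have : 0 ≤ t' u - t u := by
    apply (hs u).nonneg
    intro k
    split_ifs
    · exact (hw k).1
    · exact le_rfl
  linarith

theorem hasSum_set {t t' : V → ℝ} {v : ℕ → V} {w : ℕ → ℝ}
    (hs : ∀ u, HasSum (fun k => if v k = u then w k else 0) (t' u - t u)) (F : Finset V) :
    HasSum (fun k => if v k ∈ F then w k else 0) (∑ x ∈ F, t' x - ∑ x ∈ F, t x) := by
  have h := hasSum_sum (fun u (_ : u ∈ F) => hs u)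
  rw [Finset.sum_sub_distrib] at h
  convert h using 1
  funext k
  by_cases hk : v k ∈ F
  · rw [if_pos hk, Finset.sum_ite_eq, if_pos hk]
  · rw [if_neg hk, Finset.sum_ite_eq, if_neg hk]

/-- a set `F` contained in every edge that meets it never gets a total weight above one -/
theorem FracMove.set_le {t t' : V → ℝ} (h : FracMove H t t') (F : Finset V)
    (hF : ∀ E ∈ H, ∀ x ∈ F, x ∈ E → F ⊆ E) (h0 : ∀ u, 0 ≤ t u) (h1 : ∑ x ∈ F, t x ≤ 1) :
    ∑ x ∈ F, t' x ≤ 1 := by
  obtain ⟨v, w, s, hw, hl, -, -, hs⟩ := h
  have hsum := hasSum_set hs F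
  have hpart : ∀ n : ℕ, (∑ i ∈ range n, if v i ∈ F then w i else 0) ≤ 1 - ∑ x ∈ F, t x := by
    intro n
    induction n with
    | zero => simp only [range_zero, sum_empty]; linarith
    | succ n ih =>
      rw [Finset.sum_range_succ]
      by_cases hv : v n ∈ F
      · rw [if_pos hv]
        rcases (hw n).1.eq_or_lt with h | h
        · rw [← h]; linarith
        · obtain ⟨E, hE, hvE, hle⟩ := hl n h
          have hsub := hF E hE (v n) hv hvE
          have hsum0 : (0 : ℝ) ≤ ∑ i ∈ range n, if v i ∈ E then w i else 0 := by
            apply Finset.sum_nonneg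
            intro i _
            split_ifs
            · exact (hw i).1
            · exact le_rfl
          have hlt : load t E < 1 := by linarith
          have hload : load t E = ∑ x ∈ E, t x := by
            unfold load at hlt ⊢
            rcases le_total 1 (∑ x ∈ E, t x) with h | h
            · rw [min_eq_left h] at hlt
              exact absurd hlt (lt_irrefl _)
            · exact min_eq_right h
          have h2 : ∑ x ∈ F, t x ≤ ∑ x ∈ E, t x :=
            Finset.sum_le_sum_of_subset_of_nonneg hsub (fun x _ _ => h0 x)
          have h3 : (∑ i ∈ range n, if v i ∈ F then w i else 0) ≤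
              ∑ i ∈ range n, if v i ∈ E then w i else 0 := by
            apply Finset.sum_le_sum
            intro i _
            by_cases hi : v i ∈ F
            · rw [if_pos hi, if_pos (hsub hi)]
            · rw [if_neg hi]
              split_ifs
              · exact (hw i).1
              · exact le_rfl
          linarith
      · rw [if_neg hv]; linarith
  have := le_of_tendsto' hsum.tendsto_sum_nat hpart
  linarith

theorem FracMove.le_one {t t' : V → ℝ} (h : FracMove H t t') (h0 : ∀ u, 0 ≤ t u)
    (h1 : ∀ u, t u ≤ 1) (u : V) : t' u ≤ 1 := by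
  have := h.set_le {u} (by
    intro E _ x hx hxE
    rw [Finset.mem_singleton] at hx
    subst hx
    exact Finset.singleton_subset_iff.mpr hxE) h0 (by simpa using h1 u)
  simpa using this

theorem FracMove.total [Fintype V] {t t' : V → ℝ} (h : FracMove H t t') :
    ∑ u, t' u ≤ ∑ u, t u + 1 ∧ (¬ FracCovered H t' → ∑ u, t' u = ∑ u, t u + 1) := by
  obtain ⟨v, w, s, hw, hl, hsw, hs1, hs⟩ := h
  have hsum := hasSum_set hs Finset.univ
  simp only [Finset.mem_univ, if_true] at hsum
  have := hsw.unique hsum
  constructor
  · rcases hs1 with h | h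
    · linarith
    · linarith [h.1]
  · intro hc
    rcases hs1 with h | h
    · linarith
    · exact absurd h.2 hc

/-- finite sequences of submoves: from `t` to `t'` with total weight `s` -/
inductive Sub (H : Finset (Finset V)) (t : V → ℝ) : (V → ℝ) → ℝ → Prop
  | refl : Sub H t t 0
  | step (t' : V → ℝ) (s : ℝ) (v : V) (w : ℝ) : Sub H t t' s → 0 ≤ w →
      (0 < w → ∃ E ∈ H, v ∈ E ∧ ∑ x ∈ E, t' x + w ≤ 1) →
      Sub H t (fun u => t' u + if u = v then w else 0) (s + w)

theorem Sub.le {t t' : V → ℝ} {s : ℝ} (h : Sub H t t' s) (u : V) : t u ≤ t' u := by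
  induction h with
  | refl => exact le_rfl
  | step t' s v w _ hw _ ih =>
    dsimp only
    split_ifs <;> linarith

theorem Sub.nonneg {t t' : V → ℝ} {s : ℝ} (h : Sub H t t' s) : 0 ≤ s := by
  induction h with
  | refl => exact le_rfl
  | step t' s v w _ hw _ ih => linarith

theorem Sub.exists_seq {t t' : V → ℝ} {s : ℝ} (h : Sub H t t' s) (v0 : V) :
    ∃ (n : ℕ) (v : ℕ → V) (w : ℕ → ℝ), (∀ k, 0 ≤ w k) ∧ (∀ k, n ≤ k → w k = 0) ∧
      (∀ k, 0 < w k → ∃ E ∈ H, v k ∈ E ∧
        load t E + (∑ i ∈ range k, if v i ∈ E then w i else 0) + w k ≤ 1) ∧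
      (∑ k ∈ range n, w k = s) ∧
      ∀ u, (∑ k ∈ range n, if v k = u then w k else 0) = t' u - t u := by
  induction h with
  | refl =>
    refine ⟨0, fun _ => v0, fun _ => 0, fun _ => le_rfl, fun _ _ => rfl, ?_, ?_, ?_⟩
    · intro k hk
      exact absurd hk (lt_irrefl _)
    · simp
    · intro u
      simp
  | step t' s v1 w1 hsub hw1 hleg ih =>
    obtain ⟨n, v, w, hw, hn, hl, hs, hu⟩ := ih
    refine ⟨n + 1, Function.update v n v1, Function.update w n w1, ?_, ?_, ?_, ?_, ?_⟩
    · intro k
      by_cases hk : k = n
      · subst hk; rw [Function.update_self]; exact hw1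
      · rw [Function.update_of_ne hk]; exact hw k
    · intro k hk
      rw [Function.update_of_ne (by omega)]
      exact hn k (by omega)
    · intro k hk
      have hup : ∀ (F : Finset V), ∀ m ≤ n,
          (∑ i ∈ range m, if (Function.update v n v1) i ∈ F then (Function.update w n w1) i else 0)
            = ∑ i ∈ range m, if v i ∈ F then w i else 0 := by
        intro F m hm
        apply Finset.sum_congr rfl
        intro i hi
        have : i ≠ n := by
          have := Finset.mem_range.mp hi
          omega
        rw [Function.update_of_ne this, Function.update_of_ne this]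
      rcases lt_trichotomy k n with h | h | h
      · rw [Function.update_of_ne h.ne] at hk ⊢
        obtain ⟨F, hF, hkF, hle'⟩ := hl k hk
        rw [Function.update_of_ne h.ne]
        refine ⟨F, hF, hkF, ?_⟩
        rw [hup F k h.le]; exact hle'
      · subst h
        rw [Function.update_self] at hk ⊢
        rw [Function.update_self]
        obtain ⟨E, hE, hv1, hle⟩ := hleg hk
        refine ⟨E, hE, hv1, ?_⟩
        rw [hup E k le_rfl]
        have h1 : (∑ i ∈ range k, if v i ∈ E then w i else 0) =
            ∑ x ∈ E, t' x - ∑ x ∈ E, t x := by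
          rw [← Finset.sum_sub_distrib, ← Finset.sum_congr rfl (fun u _ => hu u),
            Finset.sum_comm]
          apply Finset.sum_congr rfl
          intro i _
          by_cases hi : v i ∈ E
          · rw [if_pos hi, Finset.sum_ite_eq, if_pos hi]
          · rw [if_neg hi, Finset.sum_ite_eq, if_neg hi]
        rw [h1]
        have h2 : load t E ≤ ∑ x ∈ E, t x := min_le_right _ _
        linarith
      · rw [Function.update_of_ne h.ne', hn k h.le] at hk
        exact absurd hk (lt_irrefl _)
    · rw [Finset.sum_range_succ, Function.update_self, ← hs]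
      congr 1
      apply Finset.sum_congr rfl
      intro i hi
      have := Finset.mem_range.mp hi
      rw [Function.update_of_ne (by omega)]
    · intro u
      rw [Finset.sum_range_succ, Function.update_self, Function.update_self]
      have h1 : (∑ k ∈ range n, if (Function.update v n v1) k = u then (Function.update w n w1) k
          else 0) = t' u - t u := by
        rw [← hu u]
        apply Finset.sum_congr rfl
        intro i hi
        have := Finset.mem_range.mp hi
        rw [Function.update_of_ne (by omega), Function.update_of_ne (by omega)]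
      rw [h1]
      dsimp only
      by_cases h : u = v1
      · rw [if_pos h, if_pos h.symm]; ring
      · rw [if_neg h, if_neg (fun h' => h h'.symm)]; ring

theorem Sub.fracMove {t t' : V → ℝ} {s : ℝ} (h : Sub H t t' s) (v0 : V)
    (hs : s = 1 ∨ s ≤ 1 ∧ FracCovered H t') : FracMove H t t' := by
  obtain ⟨n, v, w, hw, hn, hl, hsum, hu⟩ := h.exists_seq v0
  have hs1 : s ≤ 1 := by
    rcases hs with h | h
    · exact h.le
    · exact h.1
  refine ⟨v, w, s, ?_, hl, ?_, hs, ?_⟩
  · intro k
    refine ⟨hw k, ?_⟩
    by_cases hk : k < n
    · calc w k ≤ ∑ k ∈ range n, w k :=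
            Finset.single_le_sum (fun i _ => hw i) (Finset.mem_range.mpr hk)
        _ ≤ 1 := by rw [hsum]; exact hs1
    · rw [hn k (by omega)]
      exact zero_le_one
  · rw [← hsum]
    apply hasSum_sum_of_ne_finset_zero
    intro k hk
    apply hn
    rw [Finset.mem_range] at hk
    omega
  · intro u
    rw [← hu u]
    apply hasSum_sum_of_ne_finset_zero
    intro k hk
    rw [Finset.mem_range] at hk
    rw [hn k (by omega)]
    simp

/-- every finite sequence of submoves of total weight at most one can be completed to a move -/
theorem Sub.complete {t t1 : V → ℝ} {s : ℝ} (h : Sub H t t1 s) (hs : s ≤ 1)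
    (hne : ∀ E ∈ H, E.Nonempty) (v0 : V) : ∃ t', FracMove H t t' ∧ ∀ u, t1 u ≤ t' u := by
  classical
  generalize hN : (H.filter (fun E => ∑ x ∈ E, t1 x < 1)).card = N
  induction N using Nat.strong_induction_on generalizing t1 s with
  | _ N ih =>
    by_cases hc : FracCovered H t1
    · exact ⟨t1, h.fracMove v0 (Or.inr ⟨hs, hc⟩), fun u => le_rfl⟩
    rcases hs.eq_or_lt with hs1 | hs1
    · exact ⟨t1, h.fracMove v0 (Or.inl hs1), fun u => le_rfl⟩
    rw [covered_iff] at hc
    push Not at hc
    obtain ⟨E, hE, hlt⟩ := hc
    obtain ⟨v, hv⟩ := hne E hE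
    let w := min (1 - s) (1 - ∑ x ∈ E, t1 x)
    have hw0 : 0 < w := lt_min (by linarith) (by linarith)
    have hw1 : w ≤ 1 - s := min_le_left _ _
    have hw2 : w ≤ 1 - ∑ x ∈ E, t1 x := min_le_right _ _
    have hstep := Sub.step t1 s v w h hw0.le (fun _ => ⟨E, hE, hv, by linarith⟩)
    set t2 : V → ℝ := fun u => t1 u + if u = v then w else 0 with ht2
    have h12 : ∀ u, t1 u ≤ t2 u := by
      intro u
      simp only [ht2]
      split_ifs <;> linarith
    rcases le_total (1 - s) (1 - ∑ x ∈ E, t1 x) with hcase | hcase
    · have hw : w = 1 - s := min_eq_left hcase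
      exact ⟨t2, hstep.fracMove v0 (Or.inl (by rw [hw]; ring)), h12⟩
    · have hw : w = 1 - ∑ x ∈ E, t1 x := min_eq_right hcase
      have hE2 : ∑ x ∈ E, t2 x = 1 := by
        simp only [ht2]
        rw [Finset.sum_add_distrib, Finset.sum_ite_eq', if_pos hv, hw]
        ring
      have hcard : (H.filter (fun E => ∑ x ∈ E, t2 x < 1)).card < N := by
        rw [← hN]
        apply Finset.card_lt_card
        rw [Finset.ssubset_iff_of_subset]
        · refine ⟨E, ?_, ?_⟩
          · rw [Finset.mem_filter]; exact ⟨hE, hlt⟩
          · rw [Finset.mem_filter, hE2]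
            intro h
            exact lt_irrefl _ h.2
        · intro F hF
          rw [Finset.mem_filter] at hF ⊢
          exact ⟨hF.1, lt_of_le_of_lt (Finset.sum_le_sum (fun x _ => h12 x)) hF.2⟩
      obtain ⟨t', ht', hle⟩ := ih _ hcard hstep (by linarith) rfl
      exact ⟨t', ht', fun u => (h12 u).trans (hle u)⟩

/-- if every end of the play is good, both players force a good end -/
theorem forces_of_inv {P : Type} {move : P → P → Prop} {finished good : P → Prop} (Inv : P → Prop)
    (μ : P → ℕ) (hstep : ∀ p q, Inv p → ¬ finished p → move p q → Inv q ∧ (¬ finished q → μ q < μ p))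
    (hex : ∀ p, Inv p → ¬ finished p → ∃ q, move p q) (hgood : ∀ p, Inv p → finished p → good p)
    (b : Bool) (p : P) (hp : Inv p) : Forces move finished good b p := by
  generalize hN : μ p = N
  induction N using Nat.strong_induction_on generalizing p b with
  | _ N ih =>
    by_cases hc : finished p
    · exact Forces.done b p hc (hgood p hp hc)
    · have key : ∀ q, move p q → ∀ b, Forces move finished good b q := by
        intro q hq b
        obtain ⟨h1, h2⟩ := hstep p q hp hc hq
        by_cases hcq : finished q
        · exact Forces.done b q hcq (hgood q h1 hcq)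
        · exact ih (μ q) (by rw [← hN]; exact h2 hcq) b q h1 rfl
      cases b with
      | true =>
        obtain ⟨q, hq⟩ := hex p hp hc
        exact Forces.own p q hc hq (key q hq false)
      | false => exact Forces.opp p hc (hex p hp hc) (fun q hq => key q hq true)

/-- two forcing strategies meet in a common end position -/
theorem Forces.meet {P : Type} {move : P → P → Prop} {finished good good' : P → Prop} {b : Bool}
    {p : P} (h : Forces move finished good b p) (h' : Forces move finished good' (!b) p) :
    ∃ q, finished q ∧ good q ∧ good' q := by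
  induction h with
  | done b p ho hg =>
    generalize (!b) = b' at h'
    cases h' with
    | done _ _ _ hg' => exact ⟨p, ho, hg, hg'⟩
    | own _ _ hn _ _ => exact absurd ho hn
    | opp _ hn _ _ => exact absurd ho hn
  | own p q hn hm _ ih =>
    cases h' with
    | done _ _ ho _ => exact absurd ho hn
    | opp _ _ _ hall => exact ih (hall q hm)
  | opp p hn _ _ ih =>
    cases h' with
    | done _ _ ho _ => exact absurd ho hn
    | own _ q _ hm hq => exact ih q hm hq

end General

end Pool.Agent.Lib.MP_efe87e_co
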